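import Pool.Agent.H1.TyC

namespace Pool.Agent.Results.MP_f608e6_al.Order

/-- `S` is a numerical semigroup of multiplicity `m` with exactly `d` minimal generators -/
def NS (S : AddSubmonoid ℕ) (m d : ℕ) : Prop :=
  (S : Set ℕ)ᶜ.Finite ∧ (m ∈ S ∧ m ≠ 0 ∧ ∀ x ∈ S, x ≠ 0 → m ≤ x) ∧
    {x : ℕ | x ∈ S ∧ x ≠ 0 ∧ ¬ ∃ a ∈ S, ∃ c ∈ S, a ≠ 0 ∧ c ≠ 0 ∧ a + c = x}.ncard = d

/-- the type: number of pseudo-Frobenius numbers -/
noncomputable def type (S : AddSubmonoid ℕ) : ℕ :=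
  {p : ℤ | (¬ ∃ x ∈ S, (x : ℤ) = p) ∧ ∀ s ∈ S, s ≠ 0 → ∃ x ∈ S, (x : ℤ) = p + s}.ncard

theorem type_eq (S : AddSubmonoid ℕ) (m d : ℕ) (h : NS S m d) (hd : 2 ≤ d) :
    type S = {x : ℕ | x ∉ S ∧ ∀ s ∈ S, s ≠ 0 → x + s ∈ S}.ncard := by
  obtain ⟨-, ⟨hm, hm0, hmin⟩, hg⟩ := h
  obtain ⟨g, ⟨hg1, hg2, hg3⟩, hgm⟩ := Set.exists_ne_of_one_lt_ncard (hg ▸ (by omega : 1 < d)) m
  have hmg := hmin g hg1 hg2
  unfold type
  rw [← Set.ncard_image_of_injective _ (Nat.cast_injective (R := ℤ))]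
  congr 1
  ext p
  simp only [Set.mem_ofPred_eq, Set.mem_image]
  constructor
  · rintro ⟨h1, h2⟩
    have hp : 0 ≤ p := by
      by_contra hp
      obtain ⟨x, hx, e⟩ := h2 m hm hm0
      have hx0 : x = 0 := by
        by_contra h0
        have := hmin x hx h0
        omega
      obtain ⟨y, hy, e'⟩ := h2 g hg1 hg2
      exact hg3 ⟨m, hm, y, hy, hm0, by omega, by omega⟩
    lift p to ℕ using hp
    refine ⟨p, ⟨fun h => h1 ⟨p, h, rfl⟩, fun s hs h0 => ?_⟩, rfl⟩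
    obtain ⟨x, hx, e⟩ := h2 s hs h0
    have : x = p + s := by omega
    exact this ▸ hx
  · rintro ⟨x, ⟨h1, h2⟩, rfl⟩
    refine ⟨?_, fun s hs h0 => ⟨x + s, h2 s hs h0, by push_cast; rfl⟩⟩
    rintro ⟨y, hy, e⟩
    have : y = x := by omega
    exact h1 (this ▸ hy)

theorem result (e : ℕ) (he : 3 ≤ e) : ∃ C M : ℕ,
    (∀ m : ℕ, ∀ S : AddSubmonoid ℕ, NS S m (e + 1) → type S ^ (e - 1) ≤ C * m ^ (e - 2)) ∧
    (∀ m : ℕ, M ≤ m → ∃ S : AddSubmonoid ℕ, NS S m (e + 1) ∧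
      m ^ (e - 2) ≤ C * type S ^ (e - 1)) := by
  obtain ⟨p, rfl⟩ : ∃ p, e = p + 3 := ⟨e - 3, by omega⟩
  have a1 : p + 3 - 1 = p + 2 := by omega
  have a2 : p + 3 - 2 = p + 1 := by omega
  rw [a1, a2]
  set K := 2 * (p + 1) * (p + 4) with hK
  set D := p + 3 + (p + 3) ^ 2 with hD
  refine ⟨D ^ (p + 2) * (2 ^ (p + 2)) ^ (p + 1) + (K * 2 ^ (p + 2)) ^ (p + 1) * 2 ^ (p + 2),
    K * 2 ^ (p + 2), ?_, ?_⟩
  · intro m S h
    rw [type_eq S m _ h (by omega)]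
    obtain ⟨hfin, hm, hg⟩ := h
    have hex : ∃ B, m ≤ B ^ (p + 2) := ⟨m, Nat.le_self_pow (by omega) m⟩
    set B := Nat.find hex with hB
    have h1 : m ≤ B ^ (p + 2) := Nat.find_spec hex
    have hB0 : 0 < B := by
      rcases Nat.eq_zero_or_pos B with h0 | h0
      · rw [h0, zero_pow (by omega)] at h1
        have := hm.2.1
        omega
      · exact h0
    have h2 : B ^ (p + 2) ≤ 2 ^ (p + 2) * m := by
      by_cases hB1 : B = 1
      · rw [hB1, one_pow]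
        exact Nat.mul_pos (by positivity) (Nat.pos_of_ne_zero hm.2.1)
      · have h3 : ¬ m ≤ (B - 1) ^ (p + 2) := Nat.find_min hex (by omega)
        calc B ^ (p + 2) ≤ (2 * (B - 1)) ^ (p + 2) := Nat.pow_le_pow_left (by omega) _
          _ = 2 ^ (p + 2) * (B - 1) ^ (p + 2) := mul_pow _ _ _
          _ ≤ _ := Nat.mul_le_mul_left _ (by omega)
    have h4 := Pool.Agent.H1.Ty.type_bound S m (p + 3) (by omega) hm hg hfin B
    rw [a2] at h4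
    generalize {x : ℕ | x ∉ S ∧ ∀ s ∈ S, s ≠ 0 → x + s ∈ S}.ncard = t at *
    have h5 : t ≤ D * B ^ (p + 1) := by
      refine Nat.le_of_mul_le_mul_right (le_trans h4 ?_) hB0
      have : D * B ^ (p + 1) * B = (p + 3) * B ^ (p + 2) + (p + 3) ^ 2 * B ^ (p + 1) * B := by
        rw [hD]; ring
      rw [this]
      exact Nat.add_le_add_right (Nat.mul_le_mul_left _ h1) _
    calc t ^ (p + 2) ≤ (D * B ^ (p + 1)) ^ (p + 2) := Nat.pow_le_pow_left h5 _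
      _ = D ^ (p + 2) * (B ^ (p + 2)) ^ (p + 1) := by
        rw [mul_pow, ← pow_mul, ← pow_mul, mul_comm (p + 1)]
      _ ≤ D ^ (p + 2) * (2 ^ (p + 2) * m) ^ (p + 1) :=
        Nat.mul_le_mul_left _ (Nat.pow_le_pow_left h2 _)
      _ = D ^ (p + 2) * (2 ^ (p + 2)) ^ (p + 1) * m ^ (p + 1) := by rw [mul_pow, mul_assoc]
      _ ≤ _ := Nat.mul_le_mul_right _ (Nat.le_add_right _ _)
  · intro m hm
    have hK0 : 0 < K := by rw [hK]; positivity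
    have hex : ∃ b, m < K * (b + 1) ^ (p + 2) := ⟨m, lt_of_lt_of_le (Nat.lt_succ_self m)
      (le_trans (Nat.le_self_pow (by omega) _) (Nat.le_mul_of_pos_left _ hK0))⟩
    set b := Nat.find hex with hb
    have h1 : m < K * (b + 1) ^ (p + 2) := Nat.find_spec hex
    have hb2 : 2 ≤ b := by
      by_contra h
      have : K * (b + 1) ^ (p + 2) ≤ K * 2 ^ (p + 2) :=
        Nat.mul_le_mul_left _ (Nat.pow_le_pow_left (by omega) _)
      omega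
    have h2 : K * b ^ (p + 2) ≤ m := by
      have h3 : ¬ m < K * (b - 1 + 1) ^ (p + 2) := Nat.find_min hex (by omega)
      rw [Nat.sub_add_cancel (by omega)] at h3
      omega
    obtain ⟨S, s1, s2, s3, s4⟩ := Pool.Agent.H1.TyL.lower p b m hb2 h2
    have hNS : NS S m (p + 3 + 1) := ⟨s1, s2, s3⟩
    refine ⟨S, hNS, ?_⟩
    rw [type_eq S m _ hNS (by omega)]
    generalize {x : ℕ | x ∉ S ∧ ∀ s ∈ S, s ≠ 0 → x + s ∈ S}.ncard = t at *
    have h3 : 2 ≤ b ^ (p + 1) := le_trans hb2 (Nat.le_self_pow (by omega) _)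
    have h4 : m ≤ K * 2 ^ (p + 2) * b ^ (p + 2) := by
      rw [mul_assoc, ← mul_pow]
      exact le_trans h1.le (Nat.mul_le_mul_left _ (Nat.pow_le_pow_left (by omega) _))
    calc m ^ (p + 1) ≤ (K * 2 ^ (p + 2) * b ^ (p + 2)) ^ (p + 1) := Nat.pow_le_pow_left h4 _
      _ = (K * 2 ^ (p + 2)) ^ (p + 1) * (b ^ (p + 1)) ^ (p + 2) := by
        rw [mul_pow (K * 2 ^ (p + 2)), ← pow_mul b, ← pow_mul b, mul_comm (p + 1) (p + 2)]
      _ ≤ (K * 2 ^ (p + 2)) ^ (p + 1) * (2 * t) ^ (p + 2) :=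
        Nat.mul_le_mul_left _ (Nat.pow_le_pow_left (by omega) _)
      _ = (K * 2 ^ (p + 2)) ^ (p + 1) * 2 ^ (p + 2) * t ^ (p + 2) := by
        rw [mul_pow 2 t, ← mul_assoc]
      _ ≤ _ := Nat.mul_le_mul_right _ (Nat.le_add_left _ _)

end Pool.Agent.Results.MP_f608e6_al.Order
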